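import Mathlib

/-!
# An explicit infinite family of sequences whose restricted partition counts have odd density
tending to one half

For `c ≥ 1` let `a 0 = c` and `a (k + 1) = 1 + B 2 ^ B` with `B = a 0 * a 1 * ⋯ * a k`.  The odd
densities of the number of partitions into the first `k` parts tend to `1 / 2`.

Method: modulo `2` the counts are the coefficients of `1 / P`, `P = ∏ (1 + x ^ (a i))`. If `M` is a
period of `1 / P` and `1 / (P (1 + x))` then the bias (number of even minus number of odd values)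
of `1 / (P (1 + x ^ (1 + M)))` is essentially the square of the bias of `1 / (P (1 + x))`.
-/

open Filter Finset PowerSeries Topology

namespace Pool.Agent.Results.MP_4155d9_nt.ExplicitFamily

/-- The number of partitions of `n` into parts taken from the first `k` terms
`A 0, ..., A (k - 1)` (equal terms are distinct colours): the coefficient of `x ^ n` in the product
over `i < k` of `∑_{j ≥ 0} x ^ (j * A i) = 1 / (1 - x ^ (A i))`. -/
noncomputable def p (A : ℕ → ℕ) (n k : ℕ) : ℕ :=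
  PowerSeries.coeff n
    (∏ i ∈ range k, PowerSeries.mk (fun m => if A i ∣ m then (1 : ℕ) else 0))

/-- `δ` is the odd density of `n ↦ p A n k`. -/
def HasOddDensity (A : ℕ → ℕ) (k : ℕ) (δ : ℝ) : Prop :=
  Tendsto (fun N : ℕ => (((range (N + 1)).filter (fun n => p A n k % 2 = 1)).card : ℝ) / N)
    atTop (𝓝 δ)

/-- The explicit family. -/
def Family : Set (ℕ → ℕ) :=
  {A | 0 < A 0 ∧ ∀ k, A (k + 1) = 1 + (∏ i ∈ range (k + 1), A i) * 2 ^ (∏ i ∈ range (k + 1), A i)}

/-! ### Signs and biases -/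

def χ (x : ZMod 2) : ℤ := if x = 0 then 1 else -1

lemma χ_sub (x y : ZMod 2) : χ (x - y) = χ x * χ y := by
  revert x y; decide

lemma χ_abs (x : ZMod 2) : |χ x| = 1 := by
  revert x; decide

/-- `β` is the bias of `s`. -/
def Bias (s : ℕ → ZMod 2) (β : ℝ) : Prop :=
  Tendsto (fun N : ℕ => ((∑ n ∈ range N, χ (s n) : ℤ) : ℝ) / N) atTop (𝓝 β)

lemma periodic_mul {α : Type*} {s : ℕ → α} {M : ℕ} (hs : ∀ n, s (n + M) = s n) (q n : ℕ) :
    s (n + q * M) = s n := by
  induction q with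
  | zero => simp
  | succ q ih => rw [show n + (q + 1) * M = (n + q * M) + M by ring, hs, ih]

lemma sum_shift {s : ℕ → ℤ} {M : ℕ} (hs : ∀ n, s (n + M) = s n) (r : ℕ) :
    ∑ q ∈ range M, s (q + r) = ∑ q ∈ range M, s q := by
  induction r with
  | zero => simp
  | succ r ih =>
    rw [← ih]
    have h1 := Finset.sum_range_succ (fun q => s (q + r)) M
    have h2 := Finset.sum_range_succ' (fun q => s (q + r)) M
    have h3 : s (M + r) = s (0 + r) := by rw [add_comm, hs, zero_add]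
    have h4 : ∀ q, s (q + 1 + r) = s (q + (r + 1)) := fun q => by ring_nf
    simp only [h4] at h2
    linarith

lemma sum_block (f : ℕ → ℤ) (a M : ℕ) :
    ∑ n ∈ range (M * a), f n = ∑ q ∈ range M, ∑ r ∈ range a, f (q * a + r) := by
  induction M with
  | zero => simp
  | succ M ih => rw [Nat.succ_mul, Finset.sum_range_add, ih, Finset.sum_range_succ]

lemma bias_periodic {s : ℕ → ZMod 2} {M : ℕ} (hM : 0 < M) (hs : ∀ n, s (n + M) = s n) :
    Bias s (((∑ n ∈ range M, χ (s n) : ℤ) : ℝ) / M) := by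
  set σ : ℤ := ∑ n ∈ range M, χ (s n) with hσ
  set g : ℕ → ℝ := fun N => ((∑ n ∈ range N, χ (s n) : ℤ) : ℝ) - N * ((σ : ℝ) / M) with hg
  have hM' : (M : ℝ) ≠ 0 := by positivity
  have hgp : ∀ N, g (N + M) = g N := by
    intro N
    simp only [hg]
    rw [Finset.sum_range_add]
    have h1 : ∑ x ∈ range M, χ (s (N + x)) = σ := by
      have := sum_shift (s := fun n => χ (s n)) (M := M) (fun n => by simp only [hs]) N
      simp only [add_comm] at this ⊢
      exact this
    rw [h1]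
    push_cast
    field_simp
    ring
  have hbdd : ∀ N, |g N| ≤ ∑ n ∈ range M, |g n| := by
    intro N
    have h1 : g N = g (N % M) := by
      conv_lhs => rw [← Nat.mod_add_div N M, mul_comm]
      exact periodic_mul hgp _ _
    rw [h1]
    exact Finset.single_le_sum (f := fun n => |g n|) (fun _ _ => abs_nonneg _)
      (mem_range.mpr (Nat.mod_lt _ hM))
  have hlim : Tendsto (fun N : ℕ => g N / N) atTop (𝓝 0) := by
    have h1 : Tendsto (fun N : ℕ => (∑ n ∈ range M, |g n|) / (N : ℝ)) atTop (𝓝 0) :=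
      tendsto_const_div_atTop_nhds_zero_nat _
    refine squeeze_zero_norm (fun N => ?_) h1
    rw [Real.norm_eq_abs, abs_div, Nat.abs_cast]
    exact div_le_div_of_nonneg_right (hbdd N) (Nat.cast_nonneg N)
  have h2 : Tendsto (fun N : ℕ => g N / N + (σ : ℝ) / M) atTop (𝓝 (0 + (σ : ℝ) / M)) :=
    hlim.add_const _
  rw [zero_add] at h2
  refine h2.congr' ?_
  filter_upwards [eventually_gt_atTop 0] with N hN
  have hN' : (N : ℝ) ≠ 0 := by positivity
  simp only [hg]
  field_simp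
  ring

lemma abs_sum_le (s : ℕ → ZMod 2) (M : ℕ) : |∑ n ∈ range M, χ (s n)| ≤ M := by
  refine (Finset.abs_sum_le_sum_abs _ _).trans ?_
  simp [χ_abs]

/-! ### The main step -/

lemma key {M : ℕ} (hM : 0 < M) {s S t : ℕ → ZMod 2} (hs : ∀ n, s (n + M) = s n)
    (hS : ∀ n, S (n + M) = S n) (hS1 : ∀ n, S (n + 1) = S n + s (n + 1))
    (ht0 : ∀ r < 1 + M, t r = s r) (ht1 : ∀ n, t (n + (1 + M)) = t n + s (n + (1 + M)))
    (q r : ℕ) (hr : r < 1 + M) : t (q * (1 + M) + r) = S (q + r) - S (r + (M - 1)) := by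
  induction q with
  | zero =>
    rw [zero_mul, zero_add, ht0 r hr]
    have h1 := hS1 (r + (M - 1))
    rw [show r + (M - 1) + 1 = r + M by omega, hS, hs] at h1
    rw [h1]; ring
  | succ q ih =>
    rw [show (q + 1) * (1 + M) + r = q * (1 + M) + r + (1 + M) by ring, ht1, ih,
      show q * (1 + M) + r + (1 + M) = (q + r + 1) + (q + 1) * M by ring, periodic_mul hs,
      show q + 1 + r = q + r + 1 by ring, hS1]
    ring

lemma step {M : ℕ} (hM : 0 < M) {s S t : ℕ → ZMod 2} (hs : ∀ n, s (n + M) = s n)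
    (hS : ∀ n, S (n + M) = S n) (hS1 : ∀ n, S (n + 1) = S n + s (n + 1))
    (ht0 : ∀ r < 1 + M, t r = s r) (ht1 : ∀ n, t (n + (1 + M)) = t n + s (n + (1 + M)))
    {β : ℝ} (hβ : Bias S β) (hβ1 : |β| < 1) :
    ∃ β' : ℝ, Bias t β' ∧ |β'| < 1 ∧ |β'| / (1 - |β'|) ≤ |β| / (1 - |β|) / 2 := by
  have hkey := key hM hs hS hS1 ht0 ht1
  have htper : ∀ n, t (n + M * (1 + M)) = t n := by
    intro n
    have h1 : n = (n / (1 + M)) * (1 + M) + n % (1 + M) := by
      rw [mul_comm]; exact (Nat.div_add_mod n (1 + M)).symm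
    have hr : n % (1 + M) < 1 + M := Nat.mod_lt _ (by omega)
    generalize n / (1 + M) = q at h1
    generalize n % (1 + M) = r at h1 hr
    subst h1
    rw [show q * (1 + M) + r + M * (1 + M) = (q + M) * (1 + M) + r by ring, hkey _ _ hr,
      hkey _ _ hr, show q + M + r = q + r + M by ring, hS]
  set σ : ℤ := ∑ n ∈ range M, χ (S n) with hσ
  have hβσ : β = (σ : ℝ) / M := tendsto_nhds_unique hβ (bias_periodic hM hS)
  have hM' : (0 : ℝ) < M := by exact_mod_cast hM
  have hσM : |σ| + 1 ≤ M := by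
    have h1 : |(σ : ℝ)| < M := by
      rw [hβσ, abs_div, Nat.abs_cast, div_lt_one hM'] at hβ1
      exact hβ1
    have h2 : |σ| < (M : ℤ) := by exact_mod_cast h1
    omega
  set τ : ℤ := ∑ n ∈ range (M * (1 + M)), χ (t n) with hτ
  have hτeq : τ = (∑ r ∈ range (1 + M), χ (S (r + (M - 1)))) * σ := by
    rw [hτ, sum_block, Finset.sum_comm, Finset.sum_mul]
    apply Finset.sum_congr rfl
    intro r hr
    have h1 : ∀ q ∈ range M, χ (t (q * (1 + M) + r)) = χ (S (r + (M - 1))) * χ (S (q + r)) := by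
      intro q _
      rw [hkey q r (mem_range.mp hr), χ_sub, mul_comm]
    rw [Finset.sum_congr rfl h1, ← Finset.mul_sum,
      sum_shift (s := fun n => χ (S n)) (fun n => by simp only [hS])]
  have hτle : |τ| ≤ (|σ| + 1) * |σ| := by
    rw [hτeq, abs_mul]
    apply mul_le_mul_of_nonneg_right _ (abs_nonneg _)
    rw [add_comm 1 M, Finset.sum_range_succ,
      sum_shift (s := fun n => χ (S n)) (fun n => by simp only [hS])]
    refine (abs_add_le _ _).trans ?_
    rw [χ_abs]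
  have hMM : 0 < M * (1 + M) := by positivity
  refine ⟨(τ : ℝ) / ((M * (1 + M) : ℕ) : ℝ), bias_periodic hMM htper, ?_⟩
  have hσR : |(σ : ℝ)| + 1 ≤ M := by exact_mod_cast hσM
  have hτR : |(τ : ℝ)| ≤ (|(σ : ℝ)| + 1) * |(σ : ℝ)| := by exact_mod_cast hτle
  have hσ0 : (0 : ℝ) ≤ |(σ : ℝ)| := abs_nonneg _
  rw [abs_div, Nat.abs_cast]
  push_cast
  set x : ℝ := |(σ : ℝ)|
  set y : ℝ := |(τ : ℝ)|
  have hβ' : |β| = x / M := by rw [hβσ, abs_div, Nat.abs_cast]
  have hden : (0 : ℝ) < M * (1 + M) := by positivity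
  have hylt : y < M * (1 + M) := by nlinarith
  constructor
  · rw [div_lt_one hden]; exact hylt
  · rw [hβ']
    have e1 : y / (M * (1 + M)) / (1 - y / (M * (1 + M))) = y / (M * (1 + M) - y) := by
      have : (M * (1 + M) : ℝ) - y ≠ 0 := by linarith
      field_simp
    have e2 : x / M / (1 - x / M) / 2 = x / (2 * (M - x)) := by
      have : (M : ℝ) - x ≠ 0 := by linarith
      field_simp
    rw [e1, e2, div_le_div_iff₀ (by linarith) (by linarith)]
    have hy0 : 0 ≤ y := abs_nonneg _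
    nlinarith [mul_nonneg hσ0 (sub_nonneg.mpr hσR), mul_nonneg hσ0 hσ0]

/-! ### Generating functions modulo `2` -/

/-- `1 / (1 - X ^ a)` -/
noncomputable def g (a : ℕ) : (ZMod 2)⟦X⟧ := PowerSeries.mk (fun m => if a ∣ m then (1 : ZMod 2) else 0)

lemma g_mul {a : ℕ} (ha : 0 < a) : g a * (1 - PowerSeries.X ^ a) = 1 := by
  ext n
  rw [mul_sub, mul_one, map_sub, PowerSeries.coeff_mul_X_pow', PowerSeries.coeff_one]
  simp only [g, PowerSeries.coeff_mk]
  by_cases h : a ≤ n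
  · have h1 : a ∣ n - a ↔ a ∣ n := by
      constructor
      · intro h2
        have := dvd_add h2 (dvd_refl a)
        rwa [Nat.sub_add_cancel h] at this
      · intro h2; exact Nat.dvd_sub h2 (dvd_refl a)
    have h2 : n ≠ 0 := by omega
    simp [h, h1, h2]
  · by_cases h2 : n = 0
    · subst h2; simp [ha.ne']
    · have h3 : ¬ a ∣ n := fun h3 => h (Nat.le_of_dvd (Nat.pos_of_ne_zero h2) h3)
      simp [h, h2, h3]

noncomputable def F (A : ℕ → ℕ) (i j : ℕ) : (ZMod 2)⟦X⟧ := (∏ l ∈ range i, g (A l)) * g 1 ^ j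

noncomputable def G (A : ℕ → ℕ) (i j : ℕ) : Polynomial (ZMod 2) :=
  (∏ l ∈ range i, (1 - Polynomial.X ^ (A l))) * (1 - Polynomial.X) ^ j

lemma F_mul_G {A : ℕ → ℕ} (hA : ∀ i, 0 < A i) (i j : ℕ) :
    F A i j * ((G A i j : Polynomial (ZMod 2)) : (ZMod 2)⟦X⟧) = 1 := by
  have h1 : ((G A i j : Polynomial (ZMod 2)) : (ZMod 2)⟦X⟧) =
      (∏ l ∈ range i, (1 - PowerSeries.X ^ (A l))) * (1 - PowerSeries.X ^ 1) ^ j := by
    simp only [G]
    rw [← Polynomial.coeToPowerSeries.ringHom_apply]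
    simp only [map_mul, map_prod, map_pow, map_sub, map_one,
      Polynomial.coeToPowerSeries.ringHom_apply, Polynomial.coe_X, pow_one]
  rw [h1, F, mul_mul_mul_comm, ← Finset.prod_mul_distrib, ← mul_pow, g_mul one_pos, one_pow,
    Finset.prod_congr rfl (fun l _ => g_mul (hA l))]
  simp

lemma F_periodic {A : ℕ → ℕ} (hA : ∀ i, 0 < A i) {i j M : ℕ} (hi : 0 < i)
    (hM : G A i j ∣ 1 - Polynomial.X ^ M) (hM0 : 0 < M) (n : ℕ) :
    PowerSeries.coeff (n + M) (F A i j) = PowerSeries.coeff n (F A i j) := by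
  obtain ⟨R, hR⟩ := hM
  have hXM : (1 - Polynomial.X ^ M : Polynomial (ZMod 2)).natDegree = M := by
    rw [show (1 - Polynomial.X ^ M : Polynomial (ZMod 2)) = -(Polynomial.X ^ M - Polynomial.C 1) by
      simp, Polynomial.natDegree_neg, Polynomial.natDegree_X_pow_sub_C]
  have hne : (1 - Polynomial.X ^ M : Polynomial (ZMod 2)) ≠ 0 := by
    intro h
    rw [h, Polynomial.natDegree_zero] at hXM
    omega
  have hG0 : G A i j ≠ 0 := by rintro h; rw [h, zero_mul] at hR; exact hne hR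
  have hR0 : R ≠ 0 := by rintro h; rw [h, mul_zero] at hR; exact hne hR
  have hdeg : 0 < (G A i j).natDegree := by
    have hdvd : (1 - Polynomial.X ^ (A 0) : Polynomial (ZMod 2)) ∣ G A i j := by
      apply Dvd.dvd.mul_right
      exact Finset.dvd_prod_of_mem (fun l => (1 - Polynomial.X ^ (A l) : Polynomial (ZMod 2)))
        (mem_range.mpr hi)
    have h1 := Polynomial.natDegree_le_of_dvd hdvd hG0
    rw [show (1 - Polynomial.X ^ (A 0) : Polynomial (ZMod 2)) =
      -(Polynomial.X ^ (A 0) - Polynomial.C 1) by simp, Polynomial.natDegree_neg,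
      Polynomial.natDegree_X_pow_sub_C] at h1
    exact (hA 0).trans_le h1
  have hRdeg : R.natDegree < M := by
    have h1 := congrArg Polynomial.natDegree hR
    rw [hXM, Polynomial.natDegree_mul hG0 hR0] at h1
    omega
  have h1 : F A i j * (1 - PowerSeries.X ^ M) = (R : (ZMod 2)⟦X⟧) := by
    have h2 : ((1 - Polynomial.X ^ M : Polynomial (ZMod 2)) : (ZMod 2)⟦X⟧) =
        1 - PowerSeries.X ^ M := by
      rw [← Polynomial.coeToPowerSeries.ringHom_apply]
      simp [Polynomial.coeToPowerSeries.ringHom_apply]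
    rw [← h2, hR, Polynomial.coe_mul, ← mul_assoc, F_mul_G hA, one_mul]
  have h2 := congrArg (PowerSeries.coeff (n + M)) h1
  rw [mul_sub, mul_one, map_sub, PowerSeries.coeff_mul_X_pow, Polynomial.coeff_coe,
    Polynomial.coeff_eq_zero_of_natDegree_lt (by omega), sub_eq_zero] at h2
  exact h2

lemma G_dvd {A : ℕ → ℕ} {i j e B : ℕ} (hB : ∀ l < i, A l ∣ B) (he : i + j ≤ 2 ^ e) :
    G A i j ∣ 1 - Polynomial.X ^ (B * 2 ^ e) := by
  have h1 : (1 - Polynomial.X ^ (B * 2 ^ e) : Polynomial (ZMod 2)) =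
      (1 - Polynomial.X ^ B) ^ 2 ^ e := by
    have : CharP (Polynomial (ZMod 2)) 2 := inferInstance
    rw [sub_pow_char_pow, one_pow, pow_mul]
  rw [h1]
  refine dvd_trans ?_ (pow_dvd_pow _ he)
  rw [pow_add]
  apply mul_dvd_mul
  · have h2 : (1 - Polynomial.X ^ B : Polynomial (ZMod 2)) ^ i =
        ∏ _l ∈ range i, (1 - Polynomial.X ^ B) := by simp
    rw [h2]
    apply Finset.prod_dvd_prod_of_dvd
    intro l hl
    obtain ⟨m, hm⟩ := hB l (mem_range.mp hl)
    rw [hm, pow_mul]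
    exact one_sub_dvd_one_sub_pow _ _
  · apply pow_dvd_pow_of_dvd
    exact one_sub_dvd_one_sub_pow _ _

lemma F_zero {A : ℕ → ℕ} (i j : ℕ) : PowerSeries.coeff 0 (F A i j) = 1 := by
  have hg : ∀ a, PowerSeries.constantCoeff (g a) = 1 := by
    intro a
    rw [← PowerSeries.coeff_zero_eq_constantCoeff_apply]
    simp [g]
  rw [PowerSeries.coeff_zero_eq_constantCoeff_apply]
  simp [F, map_mul, map_prod, map_pow, hg]

/-- the coefficients of `F A i (j + 1)` are the partial sums of those of `F A i j` -/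
lemma F_succ (A : ℕ → ℕ) (i j n : ℕ) : PowerSeries.coeff (n + 1) (F A i (j + 1)) =
    PowerSeries.coeff n (F A i (j + 1)) + PowerSeries.coeff (n + 1) (F A i j) := by
  have h1 : F A i (j + 1) * (1 - PowerSeries.X ^ 1) = F A i j := by
    rw [F, F, pow_succ, ← mul_assoc, mul_assoc (_ * _) (g 1), g_mul one_pos, mul_one]
  have h2 := congrArg (PowerSeries.coeff (n + 1)) h1
  rw [mul_sub, mul_one, map_sub, PowerSeries.coeff_mul_X_pow] at h2
  rw [← h2]; ring

lemma F_next {A : ℕ → ℕ} (hA : ∀ i, 0 < A i) (i j : ℕ) :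
    F A (i + 1) j * (1 - PowerSeries.X ^ (A i)) = F A i j := by
  rw [F, F, Finset.prod_range_succ]
  calc (∏ x ∈ range i, g (A x)) * g (A i) * g 1 ^ j * (1 - PowerSeries.X ^ (A i))
      = (∏ x ∈ range i, g (A x)) * g 1 ^ j * (g (A i) * (1 - PowerSeries.X ^ (A i))) := by ring
    _ = _ := by rw [g_mul (hA i), mul_one]

lemma p_cast (A : ℕ → ℕ) (n k : ℕ) :
    ((p A n k : ℕ) : ZMod 2) = PowerSeries.coeff n (F A k 0) := by
  have h1 : F A k 0 = PowerSeries.map (Nat.castRingHom (ZMod 2))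
      (∏ i ∈ range k, PowerSeries.mk (fun m => if A i ∣ m then (1 : ℕ) else 0)) := by
    rw [map_prod, F, pow_zero, mul_one]
    apply Finset.prod_congr rfl
    intro i _
    ext m
    rw [PowerSeries.coeff_map]
    simp only [g, PowerSeries.coeff_mk]
    split_ifs <;> simp
  rw [h1, PowerSeries.coeff_map]
  rfl

/-! ### The chain of inequalities -/

/-- the coefficients of `F A i j` -/
noncomputable def u (A : ℕ → ℕ) (i j n : ℕ) : ZMod 2 := PowerSeries.coeff n (F A i j)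

noncomputable def B (A : ℕ → ℕ) (i : ℕ) : ℕ := ∏ l ∈ range i, A l

lemma fam_pos {A : ℕ → ℕ} (hA : A ∈ Family) (i : ℕ) : 0 < A i := by
  cases i with
  | zero => exact hA.1
  | succ i => rw [hA.2 i]; omega

lemma B_succ (A : ℕ → ℕ) (i : ℕ) : B A (i + 1) = B A i * A i := by
  rw [B, Finset.prod_range_succ]; rfl

lemma A_eq {A : ℕ → ℕ} (hA : A ∈ Family) {i : ℕ} (hi : 1 ≤ i) :
    A i = 1 + B A i * 2 ^ B A i := by
  obtain ⟨j, rfl⟩ : ∃ j, i = j + 1 := ⟨i - 1, by omega⟩
  exact hA.2 j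

lemma B_pos {A : ℕ → ℕ} (hA : A ∈ Family) (i : ℕ) : 0 < B A i :=
  Finset.prod_pos fun l _ => fam_pos hA l

lemma B_lt {A : ℕ → ℕ} (hA : A ∈ Family) {i : ℕ} (hi : 1 ≤ i) : B A i < B A (i + 1) := by
  rw [B_succ, A_eq hA hi]
  have h1 := B_pos hA i
  have h2 : 0 < 2 ^ B A i := by positivity
  nlinarith [mul_pos h1 h2, mul_pos h1 (mul_pos h1 h2)]

lemma B_mono {A : ℕ → ℕ} (hA : A ∈ Family) (i d : ℕ) : B A i ≤ B A (i + d) := by
  induction d with
  | zero => exact le_refl _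
  | succ d ih =>
    refine ih.trans ?_
    rw [show i + (d + 1) = (i + d) + 1 by ring, B_succ]
    exact Nat.le_mul_of_pos_right _ (fam_pos hA _)

lemma le_B {A : ℕ → ℕ} (hA : A ∈ Family) {i : ℕ} (hi : 1 ≤ i) : i ≤ B A i := by
  induction i, hi using Nat.le_induction with
  | base => exact B_pos hA 1
  | succ i hi ih => exact ih.trans_lt (B_lt hA hi)

lemma dvd_B (A : ℕ → ℕ) {l i : ℕ} (h : l < i) : A l ∣ B A i :=
  Finset.dvd_prod_of_mem A (mem_range.mpr h)

lemma u_periodic {A : ℕ → ℕ} (hA : A ∈ Family) {i j e : ℕ} (hi : 1 ≤ i) (h : i + j ≤ 2 ^ e)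
    (n : ℕ) : u A i j (n + B A i * 2 ^ e) = u A i j n := by
  apply F_periodic (fam_pos hA) hi (G_dvd (fun l hl => dvd_B A hl) h)
  exact Nat.mul_pos (B_pos hA i) (by positivity)

lemma chain {A : ℕ → ℕ} (hA : A ∈ Family) {i j : ℕ} (hi : 1 ≤ i) (h : i + (j + 1) ≤ 2 ^ B A i)
    {β : ℝ} (hβ : Bias (u A i (j + 1)) β) (hβ1 : |β| < 1) :
    ∃ β' : ℝ, Bias (u A (i + 1) j) β' ∧ |β'| < 1 ∧ |β'| / (1 - |β'|) ≤ |β| / (1 - |β|) / 2 := by
  have hM : 0 < B A i * 2 ^ B A i := Nat.mul_pos (B_pos hA i) (by positivity)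
  have hAi := A_eq hA hi
  refine step hM (s := u A i j) (S := u A i (j + 1)) (t := u A (i + 1) j)
    (fun n => u_periodic hA hi (by omega) n) (fun n => u_periodic hA hi h n)
    (fun n => F_succ A i j n) ?_ ?_ hβ hβ1
  · intro r hr
    have h1 := congrArg (PowerSeries.coeff r) (F_next (fam_pos hA) i j)
    rw [mul_sub, mul_one, map_sub, PowerSeries.coeff_mul_X_pow', if_neg (by omega), sub_zero] at h1
    exact h1
  · intro n
    have h1 := congrArg (PowerSeries.coeff (n + A i)) (F_next (fam_pos hA) i j)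
    rw [mul_sub, mul_one, map_sub, PowerSeries.coeff_mul_X_pow] at h1
    rw [← hAi]
    simp only [u]
    rw [← h1]; ring

lemma iter {A : ℕ → ℕ} (hA : A ∈ Family) {k m : ℕ} (hk : 1 ≤ k) (h : k + m ≤ 2 ^ B A k)
    {β : ℝ} (hβ : Bias (u A k m) β) (hβ1 : |β| < 1) (d : ℕ) (hd : d ≤ m) :
    ∃ β' : ℝ, Bias (u A (k + d) (m - d)) β' ∧ |β'| < 1 ∧
      |β'| / (1 - |β'|) ≤ |β| / (1 - |β|) / 2 ^ d := by
  induction d with
  | zero => exact ⟨β, by simpa using hβ, hβ1, by simp⟩
  | succ d ih =>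
    obtain ⟨β₁, h1, h2, h3⟩ := ih (by omega)
    rw [show m - d = (m - (d + 1)) + 1 by omega] at h1
    obtain ⟨β₂, h4, h5, h6⟩ := chain hA (i := k + d) (j := m - (d + 1)) (by omega) (by
      have h7 : 2 ^ B A k ≤ 2 ^ B A (k + d) := Nat.pow_le_pow_right (by norm_num) (B_mono hA k d)
      omega) h1 h2
    refine ⟨β₂, h4, h5, h6.trans ?_⟩
    rw [pow_succ, ← div_div]
    linarith

lemma exists_zero {A : ℕ → ℕ} (hA : A ∈ Family) {k m M : ℕ} (hk : 1 ≤ k) (hM : 0 < M)
    (hper : ∀ n, u A k (m + 1) (n + M) = u A k (m + 1) n) : ∃ n < M, u A k (m + 1) n = 0 := by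
  by_contra hcon
  push Not at hcon
  have h01 : ∀ x : ZMod 2, x ≠ 0 → x = 1 := by decide
  have hall : ∀ n, u A k (m + 1) n = 1 := by
    intro n
    have h1 : u A k (m + 1) n = u A k (m + 1) (n % M) := by
      conv_lhs => rw [← Nat.mod_add_div n M, mul_comm]
      exact periodic_mul hper _ _
    rw [h1]
    exact h01 _ (hcon _ (Nat.mod_lt _ hM))
  have h1 : F A k (m + 1) = g 1 := by
    ext n
    rw [show PowerSeries.coeff n (F A k (m + 1)) = u A k (m + 1) n from rfl, hall]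
    simp [g]
  have h2 : F A k m = 1 := by
    have h3 : F A k (m + 1) * (1 - PowerSeries.X ^ 1) = F A k m := by
      rw [F, F, pow_succ, ← mul_assoc, mul_assoc (_ * _) (g 1), g_mul one_pos, mul_one]
    rw [← h3, h1, g_mul one_pos]
  have h3 := F_mul_G (fam_pos hA) k m
  rw [h2, one_mul] at h3
  have h4 : G A k m = 1 := by
    apply Polynomial.coe_injective
    rw [h3, Polynomial.coe_one]
  have hdvd : (1 - Polynomial.X ^ (A 0) : Polynomial (ZMod 2)) ∣ G A k m := by
    apply Dvd.dvd.mul_right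
    exact Finset.dvd_prod_of_mem (fun l => (1 - Polynomial.X ^ (A l) : Polynomial (ZMod 2)))
      (mem_range.mpr hk)
  obtain ⟨Q, hQ⟩ := hdvd
  rw [h4] at hQ
  have h5 := congrArg (Polynomial.eval 1) hQ
  simp at h5

lemma initial {A : ℕ → ℕ} (hA : A ∈ Family) {k m M : ℕ} (hk : 1 ≤ k) (hM : 0 < M)
    (hper : ∀ n, u A k (m + 1) (n + M) = u A k (m + 1) n) :
    ∃ β : ℝ, Bias (u A k (m + 1)) β ∧ |β| < 1 ∧ |β| / (1 - |β|) ≤ M / 2 := by
  refine ⟨_, bias_periodic hM hper, ?_⟩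
  obtain ⟨n₀, hn₀, hz⟩ := exists_zero hA hk hM hper
  set f : ℕ → ℤ := fun n => χ (u A k (m + 1) n) with hf
  set σ : ℤ := ∑ n ∈ range M, f n with hσ
  have hf0 : f 0 = -1 := by
    simp only [hf]
    rw [show u A k (m + 1) 0 = 1 from F_zero k (m + 1)]
    decide
  have hfn : f n₀ = 1 := by
    simp only [hf]
    rw [hz]
    decide
  have hne : n₀ ≠ 0 := by
    rintro rfl
    rw [hf0] at hfn
    omega
  have hle : |σ| + 2 ≤ M := by
    have h1 : σ = ∑ n ∈ ((range M).erase 0).erase n₀, f n := by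
      rw [hσ, ← Finset.add_sum_erase _ f (mem_range.mpr hM),
        ← Finset.add_sum_erase _ f (a := n₀) (by simp [hne, hn₀]), hf0, hfn]
      ring
    have h2 : (((range M).erase 0).erase n₀).card + 2 = M := by
      rw [Finset.card_erase_of_mem (by simp [hne, hn₀]), Finset.card_erase_of_mem (by simpa using hM),
        card_range]
      omega
    have h3 : |σ| ≤ (((range M).erase 0).erase n₀).card := by
      rw [h1]
      refine (Finset.abs_sum_le_sum_abs _ _).trans ?_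
      simp [hf, χ_abs]
    have h4 : ((((range M).erase 0).erase n₀).card : ℤ) + 2 = M := by exact_mod_cast h2
    omega
  have hleR : |(σ : ℝ)| + 2 ≤ M := by exact_mod_cast hle
  have hM' : (0 : ℝ) < M := by exact_mod_cast hM
  rw [abs_div, Nat.abs_cast]
  set x : ℝ := |(σ : ℝ)| with hx
  have hx0 : 0 ≤ x := abs_nonneg _
  constructor
  · rw [div_lt_one hM']; linarith
  · have e2 : x / M / (1 - x / M) = x / (M - x) := by
      have : (M : ℝ) - x ≠ 0 := by linarith
      field_simp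
    rw [e2, div_le_div_iff₀ (by linarith) (by norm_num)]
    nlinarith

lemma bound {A : ℕ → ℕ} (hA : A ∈ Family) {K : ℕ} (hK : 2 ^ A 0 < K) :
    ∃ β : ℝ, Bias (u A K 0) β ∧ |β| ≤ 4 * (K : ℝ) ^ 5 / 2 ^ K := by
  have hex : ∃ k, 1 ≤ k ∧ K ≤ 2 ^ B A k := by
    refine ⟨K, ?_, ?_⟩
    · have : 0 < 2 ^ A 0 := by positivity
      omega
    · have h1 : K ≤ B A K := le_B hA (by have : 0 < 2 ^ A 0 := by positivity
                                         omega)
      exact h1.trans (Nat.lt_two_pow_self).le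
  classical
  obtain ⟨hk1, hkK⟩ := Nat.find_spec hex
  have hmin := fun {i : ℕ} (hi : i < Nat.find hex) => Nat.find_min hex hi
  generalize Nat.find hex = k at hk1 hkK hmin
  have hB1 : B A 1 = A 0 := by simp [B]
  have hk2 : 2 ≤ k := by
    by_contra hcon
    have : k = 1 := by omega
    subst this
    rw [hB1] at hkK
    omega
  obtain ⟨l, rfl⟩ : ∃ l, k = l + 1 := ⟨k - 1, by omega⟩
  have hl1 : 1 ≤ l := by omega
  have hlK : 2 ^ B A l < K := by
    have := hmin (i := l) (by omega)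
    push Not at this
    exact this hl1
  have hBl : l ≤ B A l := le_B hA hl1
  have h2l : 2 ^ l < K := (Nat.pow_le_pow_right (by norm_num) hBl).trans_lt hlK
  have hlt : l < 2 ^ l := Nat.lt_two_pow_self
  have hkltK : l + 1 < K := by omega
  obtain ⟨m, hm⟩ : ∃ m, K = (l + 1) + (m + 1) := ⟨K - (l + 1) - 1, by omega⟩
  set e := Nat.clog 2 K with he
  have hKe : K ≤ 2 ^ e := Nat.le_pow_clog (by norm_num) K
  have he2 : 2 ^ e ≤ 2 * K := by
    have h1 : 2 ^ (e - 1) < K := Nat.pow_pred_clog_lt_self (by norm_num) (by omega)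
    have h2 : 1 ≤ e := by
      by_contra hcon
      have : e = 0 := by omega
      rw [this] at hKe
      omega
    have h3 : 2 ^ e = 2 * 2 ^ (e - 1) := by
      rw [← pow_succ']; congr 1; omega
    omega
  have hM : 0 < B A (l + 1) * 2 ^ e := Nat.mul_pos (B_pos hA _) (by positivity)
  have hper : ∀ n, u A (l + 1) (m + 1) (n + B A (l + 1) * 2 ^ e) = u A (l + 1) (m + 1) n :=
    fun n => u_periodic hA (by omega) (by omega) n
  obtain ⟨β₀, h1, h2, h3⟩ := initial hA (by omega) hM hper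
  obtain ⟨β, h4, h5, h6⟩ := iter hA (k := l + 1) (m := m + 1) (by omega) (by omega) h1 h2 (m + 1)
    le_rfl
  rw [Nat.sub_self, ← hm] at h4
  refine ⟨β, h4, ?_⟩
  have h7 : |β| ≤ |β| / (1 - |β|) := by
    rw [le_div_iff₀ (by linarith)]
    nlinarith [abs_nonneg β]
  have hMle : B A (l + 1) * 2 ^ e ≤ 4 * K ^ 4 := by
    have h8 : B A (l + 1) = B A l * (1 + B A l * 2 ^ B A l) := by rw [B_succ, A_eq hA hl1]
    have h9 : B A l ≤ K := (Nat.lt_two_pow_self.trans hlK).le
    have h10 : B A l * 2 ^ B A l ≤ K * K := Nat.mul_le_mul h9 hlK.le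
    have h11 : B A (l + 1) ≤ K * (1 + K * K) := by
      rw [h8]; exact Nat.mul_le_mul h9 (by omega)
    have h12 : K * (1 + K * K) ≤ 2 * K ^ 3 := by
      have : 1 ≤ K := by omega
      nlinarith [Nat.mul_le_mul this this]
    calc B A (l + 1) * 2 ^ e ≤ (2 * K ^ 3) * (2 * K) := Nat.mul_le_mul (h11.trans h12) he2
      _ = 4 * K ^ 4 := by ring
  have hMleR : ((B A (l + 1) * 2 ^ e : ℕ) : ℝ) ≤ 4 * (K : ℝ) ^ 4 := by exact_mod_cast hMle
  have hpow : (2 : ℝ) ^ (l + 1) ≤ 2 * K := by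
    have h8 : 2 ^ (l + 1) ≤ 2 * K := by rw [pow_succ]; omega
    exact_mod_cast h8
  have hK2 : (2 : ℝ) ^ K = 2 ^ (l + 1) * 2 ^ (m + 1) := by rw [← pow_add, ← hm]
  calc |β| ≤ |β| / (1 - |β|) := h7
    _ ≤ |β₀| / (1 - |β₀|) / 2 ^ (m + 1) := h6
    _ ≤ (((B A (l + 1) * 2 ^ e : ℕ) : ℝ) / 2) / 2 ^ (m + 1) := by gcongr
    _ ≤ (4 * (K : ℝ) ^ 4 / 2) / 2 ^ (m + 1) := by gcongr
    _ = 2 * (K : ℝ) ^ 4 * 2 ^ (l + 1) / 2 ^ K := by rw [hK2]; field_simp; ring
    _ ≤ 2 * (K : ℝ) ^ 4 * (2 * K) / 2 ^ K := by gcongr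
    _ = 4 * (K : ℝ) ^ 5 / 2 ^ K := by ring

lemma density_of_bias {A : ℕ → ℕ} {k : ℕ} {β : ℝ} (h : Bias (u A k 0) β) :
    HasOddDensity A k ((1 - β) / 2) := by
  have hcount : ∀ N : ℕ, (((range (N + 1)).filter (fun n => p A n k % 2 = 1)).card : ℝ) =
      ((N + 1 : ℕ) - ((∑ n ∈ range (N + 1), χ (u A k 0 n) : ℤ) : ℝ)) / 2 := by
    intro N
    have h1 : ∀ n, χ (u A k 0 n) = 1 - 2 * (if p A n k % 2 = 1 then 1 else 0) := by
      intro n
      rw [u, ← p_cast]
      by_cases hp : p A n k % 2 = 1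
      · have h2 : ((p A n k : ℕ) : ZMod 2) = 1 := by
          rw [ZMod.natCast_eq_one_iff_odd]; exact Nat.odd_iff.mpr hp
        rw [h2, if_pos hp]; decide
      · have h2 : ((p A n k : ℕ) : ZMod 2) = 0 := by
          rw [ZMod.natCast_eq_zero_iff_even]; exact Nat.even_iff.mpr (by omega)
        rw [h2, if_neg hp]; decide
    have h2 : ∑ n ∈ range (N + 1), χ (u A k 0 n) =
        (N + 1 : ℕ) - 2 * ((range (N + 1)).filter (fun n => p A n k % 2 = 1)).card := by
      rw [Finset.sum_congr rfl (fun n _ => h1 n), Finset.sum_sub_distrib, ← Finset.mul_sum,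
        Finset.sum_boole]
      simp
    rw [h2]
    push_cast
    ring
  unfold HasOddDensity
  have h1 : Tendsto (fun N : ℕ => (((N + 1 : ℕ) : ℝ) / N -
      ((∑ n ∈ range (N + 1), χ (u A k 0 n) : ℤ) : ℝ) / ((N + 1 : ℕ) : ℝ) *
        (((N + 1 : ℕ) : ℝ) / N)) / 2) atTop (𝓝 ((1 - β * 1) / 2)) := by
    have h2 : Tendsto (fun N : ℕ => ((N + 1 : ℕ) : ℝ) / N) atTop (𝓝 1) := by
      have h3 : Tendsto (fun N : ℕ => 1 + 1 / (N : ℝ)) atTop (𝓝 (1 + 0)) :=
        tendsto_const_nhds.add tendsto_one_div_atTop_nhds_zero_nat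
      rw [add_zero] at h3
      refine h3.congr' ?_
      filter_upwards [eventually_gt_atTop 0] with N hN
      have hN' : (N : ℝ) ≠ 0 := by positivity
      push_cast
      field_simp
    have h3 := (tendsto_add_atTop_iff_nat 1).mpr h
    exact ((h2.sub (h3.mul h2)).div_const 2)
  rw [mul_one] at h1
  refine h1.congr' ?_
  filter_upwards [eventually_gt_atTop 0] with N hN
  rw [hcount]
  have hN' : (N : ℝ) ≠ 0 := by positivity
  have hN'' : ((N + 1 : ℕ) : ℝ) ≠ 0 := by positivity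
  field_simp

lemma exists_density {A : ℕ → ℕ} (hA : A ∈ Family) {k : ℕ} (hk : 1 ≤ k) :
    ∃ β : ℝ, Bias (u A k 0) β := by
  have h : k + 0 ≤ 2 ^ k := by rw [add_zero]; exact Nat.lt_two_pow_self.le
  exact ⟨_, bias_periodic (Nat.mul_pos (B_pos hA k) (by positivity)) (fun n => u_periodic hA hk h n)⟩

/-! ### The family is infinite -/

def bseq (c : ℕ) : ℕ → ℕ
  | 0 => c
  | k + 1 => bseq c k * (1 + bseq c k * 2 ^ bseq c k)

def aseq (c : ℕ) : ℕ → ℕ
  | 0 => c
  | k + 1 => 1 + bseq c k * 2 ^ bseq c k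

lemma prod_aseq (c k : ℕ) : ∏ i ∈ range (k + 1), aseq c i = bseq c k := by
  induction k with
  | zero => simp [aseq, bseq]
  | succ k ih => rw [Finset.prod_range_succ, ih]; simp [aseq, bseq]

lemma aseq_mem {c : ℕ} (hc : 0 < c) : aseq c ∈ Family :=
  ⟨hc, fun k => by rw [prod_aseq]; rfl⟩

theorem result : Family.Infinite ∧ ∀ A ∈ Family, (∀ i, 0 < A i) ∧
    (∀ d : ℕ, (∀ i, d ∣ A i) → d = 1) ∧
    ∃ δ : ℕ → ℝ, (∀ k, 1 ≤ k → HasOddDensity A k (δ k)) ∧ Tendsto δ atTop (𝓝 (1 / 2)) := by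
  refine ⟨?_, fun A hA => ⟨fam_pos hA, ?_, ?_⟩⟩
  · refine Set.infinite_of_injective_forall_mem (f := fun c : ℕ => aseq (c + 1)) ?_
      (fun c => aseq_mem (Nat.succ_pos c))
    intro c c' h
    have := congrFun h 0
    simpa [aseq] using this
  · intro d hd
    have h0 := hd 0
    have h1 := hd 1
    rw [hA.2 0] at h1
    have h2 : d ∣ (∏ i ∈ range (0 + 1), A i) * 2 ^ (∏ i ∈ range (0 + 1), A i) := by
      apply Dvd.dvd.mul_right
      simpa using h0
    exact Nat.dvd_one.mp ((Nat.dvd_add_left h2).mp h1)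
  · classical
    have hβ : ∀ k, ∃ β : ℝ, 1 ≤ k → Bias (u A k 0) β := by
      intro k
      by_cases hk : 1 ≤ k
      · obtain ⟨β, h⟩ := exists_density hA hk
        exact ⟨β, fun _ => h⟩
      · exact ⟨0, fun h => absurd h hk⟩
    choose β hβ using hβ
    refine ⟨fun k => (1 - β k) / 2, fun k hk => density_of_bias (hβ k hk), ?_⟩
    have hβ0 : Tendsto β atTop (𝓝 0) := by
      have hlim : Tendsto (fun K : ℕ => 4 * (K : ℝ) ^ 5 / 2 ^ K) atTop (𝓝 0) := by
        have h1 := tendsto_pow_const_div_const_pow_of_one_lt 5 (r := (2 : ℝ)) (by norm_num)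
        have h2 := h1.const_mul 4
        rw [mul_zero] at h2
        refine h2.congr (fun K => by ring)
      apply squeeze_zero_norm' _ hlim
      filter_upwards [eventually_gt_atTop (2 ^ A 0)] with K hK
      obtain ⟨β', h1, h2⟩ := bound hA hK
      have hK1 : 1 ≤ K := by
        have : 0 < 2 ^ A 0 := by positivity
        omega
      rw [tendsto_nhds_unique (hβ K hK1) h1]
      exact h2
    have h1 := (tendsto_const_nhds (x := (1 : ℝ))).sub hβ0
    have h2 := h1.div_const 2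
    rw [sub_zero] at h2
    exact h2

end Pool.Agent.Results.MP_4155d9_nt.ExplicitFamily
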